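import Mathlib

/-!
Definitions for the problem on realizability of distance rank orders.
-/

namespace Pool.Agent.Lib.MP_154a23_co

/-- The type of unordered pairs of distinct indices in `Fin n`. -/
abbrev Pair (n : ℕ) : Type := {e : Sym2 (Fin n) // ¬ e.IsDiag}

/-- The unordered pair `{i, j}` of two distinct indices. -/
def mkPair {n : ℕ} (i j : Fin n) (h : i ≠ j) : Pair n :=
  ⟨s(i, j), by simpa using h⟩

/-- A relation `r` on the unordered pairs is realizable in `ℝ^d` if there are points
`p 0, …, p (n-1)` with `|p i - p j| < |p k - p l|` whenever `r {i, j} {k, l}`. -/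
def Realizable (n d : ℕ) (r : Pair n → Pair n → Prop) : Prop :=
  ∃ p : Fin n → EuclideanSpace ℝ (Fin d),
    ∀ (i j k l : Fin n) (hij : i ≠ j) (hkl : k ≠ l),
      r (mkPair i j hij) (mkPair k l hkl) → dist (p i) (p j) < dist (p k) (p l)

/-- Property (∗) for the dimension `d`: every strict total order on the unordered pairs of a
`(d+3)`-element index set is realizable in `ℝ^d`. -/
def PropertyStar (d : ℕ) : Prop :=
  ∀ r : Pair (d + 3) → Pair (d + 3) → Prop, IsStrictTotalOrder (Pair (d + 3)) r →
    Realizable (d + 3) d r

end Pool.Agent.Lib.MP_154a23_co
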