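import Mathlib

/-!
# MP_154a23_co: sign patterns of affine dependences

`D` is a matrix of squared distances whose order is the nested order: pairs with a larger maximum
are smaller, pairs with the same maximum are ordered by their minimum. A vector `v` of sum zero for
which `D v` is constant and which has the weak sign pattern `+ ... + - ... -` has this pattern
strictly, up to one entry at the change of sign.
-/

set_option autoImplicit false

namespace Pool.Agent.Lib.MP_154a23_co

variable {n : ℕ}

/-- The nested order of the squared distances. -/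
structure Nested (D : Fin n → Fin n → ℝ) : Prop where
  symm : ∀ i j, D i j = D j i
  diag : ∀ i, D i i = 0
  nonneg : ∀ i j, 0 ≤ D i j
  blk : ∀ i j k l, i < j → k < l → l < j → D i j < D k l
  row : ∀ i k j, i < k → k < j → D i j < D k j

/-- The weak sign pattern `+ ... + - ... -`. -/
def Weak (v : Fin n → ℝ) : Prop := ∀ i j, i < j → 0 ≤ v i ∨ v j ≤ 0

/-- The strict sign pattern, with one free entry. -/
def Strict (v : Fin n → ℝ) : Prop :=
  ∃ m : ℕ, (∀ i : Fin n, (i : ℕ) ≤ m → 0 < v i) ∧ ∀ i : Fin n, m + 1 < (i : ℕ) → v i < 0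

theorem Strict.weak {v : Fin n → ℝ} (h : Strict v) : Weak v := by
  obtain ⟨m, h1, h2⟩ := h
  intro i j hij
  by_cases hi : (i : ℕ) ≤ m
  · exact Or.inl (h1 i hi).le
  · right
    have : m + 1 < (j : ℕ) := by
      have : (i : ℕ) < j := hij
      omega
    exact (h2 j this).le

theorem not_sum_eq_zero {ι : Type*} {s : Finset ι} {f : ι → ℝ} (h : ∀ i ∈ s, 0 ≤ f i)
    {a : ι} (ha : a ∈ s) (hpos : 0 < f a) : ∑ i ∈ s, f i ≠ 0 :=
  (Finset.sum_pos' h ⟨a, ha, hpos⟩).ne'

/-- **The weak pattern is strict.** -/
theorem strict_of_weak {D : Fin n → Fin n → ℝ} (hD : Nested D) {v : Fin n → ℝ}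
    (hs : ∑ i, v i = 0) (he : ∀ i j, ∑ l, (D i l - D j l) * v l = 0) (h0 : v ≠ 0)
    (hw : Weak v) : Strict v := by
  classical
  obtain ⟨i0, hi0⟩ : ∃ i, v i ≠ 0 := by
    by_contra hcon
    push Not at hcon
    exact h0 (funext hcon)
  -- positive and negative entries
  have hpos : ∃ i, 0 < v i := by
    obtain ⟨i, -, hi⟩ := Finset.exists_pos_of_sum_zero_of_exists_nonzero v hs
      ⟨i0, Finset.mem_univ _, hi0⟩
    exact ⟨i, hi⟩
  have hneg : ∃ i, v i < 0 := by
    have hs' : ∑ i, (-v) i = 0 := by
      simp only [Pi.neg_apply, Finset.sum_neg_distrib, hs, neg_zero]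
    obtain ⟨i, -, hi⟩ := Finset.exists_pos_of_sum_zero_of_exists_nonzero (-v) hs'
      ⟨i0, Finset.mem_univ _, by simpa using hi0⟩
    exact ⟨i, by simpa using hi⟩
  -- the last positive entry
  obtain ⟨m, hm, hmax⟩ : ∃ m, 0 < v m ∧ ∀ i, m < i → v i ≤ 0 := by
    have hne : (Finset.univ.filter fun i => 0 < v i).Nonempty := by
      obtain ⟨i, hi⟩ := hpos
      exact ⟨i, by simp [hi]⟩
    refine ⟨(Finset.univ.filter fun i => 0 < v i).max' hne, ?_, fun i hi => ?_⟩
    · have := Finset.max'_mem _ hne
      simpa using this
    · by_contra hcon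
      have h1 : i ∈ Finset.univ.filter fun i => 0 < v i := by simpa using hcon
      exact absurd (Finset.le_max' _ i h1) (not_le.2 hi)
  -- the first negative entry
  obtain ⟨q, hq, hmin⟩ : ∃ q, v q < 0 ∧ ∀ i, i < q → 0 ≤ v i := by
    have hne : (Finset.univ.filter fun i => v i < 0).Nonempty := by
      obtain ⟨i, hi⟩ := hneg
      exact ⟨i, by simp [hi]⟩
    refine ⟨(Finset.univ.filter fun i => v i < 0).min' hne, ?_, fun i hi => ?_⟩
    · have := Finset.min'_mem _ hne
      simpa using this
    · by_contra hcon
      have h1 : i ∈ Finset.univ.filter fun i => v i < 0 := by simpa using hcon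
      exact absurd (Finset.min'_le _ i h1) (not_le.2 hi)
  have hmq : m < q := by
    rcases lt_trichotomy m q with h | h | h
    · exact h
    · rw [h] at hm
      exact absurd hq (not_lt.2 hm.le)
    · rcases hw q m h with h1 | h1
      · exact absurd hq (not_lt.2 h1)
      · exact absurd hm (not_lt.2 h1)
  -- signs
  have hlem : ∀ i, i ≤ m → 0 ≤ v i := fun i hi => hmin i (lt_of_le_of_lt hi hmq)
  have hqle : ∀ i, q ≤ i → v i ≤ 0 := fun i hi => hmax i (lt_of_lt_of_le hmq hi)
  -- (A) no zero on the positive side
  have hA : ∀ i, i < m → v i ≠ 0 := by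
    intro i him hvi
    refine not_sum_eq_zero (s := Finset.univ) (f := fun l => (D i l - D m l) * v l) ?_
      (Finset.mem_univ q) ?_ (he i m)
    · intro l _
      rcases lt_trichotomy l m with hlm | hlm | hlm
      · have hvl := hlem l hlm.le
        rcases lt_trichotomy l i with hli | hli | hli
        · have h1 := hD.blk l m l i hlm hli him
          rw [hD.symm i l, hD.symm m l]
          exact mul_nonneg (by linarith) hvl
        · rw [hli, hvi, mul_zero]
        · have h1 := hD.blk l m i l hlm hli hlm
          rw [hD.symm m l]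
          exact mul_nonneg (by linarith) hvl
      · rw [hlm, hD.diag, sub_zero]
        exact mul_nonneg (hD.nonneg _ _) hm.le
      · have h1 := hD.row i m l him hlm
        exact mul_nonneg_of_nonpos_of_nonpos (by linarith) (hmax l hlm)
    · have h1 := hD.row i m q him hmq
      exact mul_pos_of_neg_of_neg (by linarith) hq
  -- (B) no zero on the negative side
  have hB : ∀ j, q < j → v j ≠ 0 := by
    intro j hqj hvj
    have hz : 0 < n := lt_of_le_of_lt (Nat.zero_le _) m.2
    let z : Fin n := ⟨0, hz⟩
    have hzq : z < q := lt_of_le_of_lt (show z ≤ m from Nat.zero_le _) hmq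
    have hsum : ∑ l, (D q l - D j l - (D z q - D q j)) * v l = 0 := by
      have h1 : ∑ l, (D q l - D j l - (D z q - D q j)) * v l =
          ∑ l, (D q l - D j l) * v l - (D z q - D q j) * ∑ l, v l := by
        rw [Finset.mul_sum, ← Finset.sum_sub_distrib]
        refine Finset.sum_congr rfl fun l _ => ?_
        ring
      rw [h1, he, hs, mul_zero, sub_zero]
    have hlt : ∀ l, l < q → 0 < D q l - D j l - (D z q - D q j) := by
      intro l hl
      have h1 := hD.row l q j hl hqj
      have h2 : D z q ≤ D l q := by
        rcases eq_or_lt_of_le (show z ≤ l from Nat.zero_le _) with h | h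
        · rw [h]
        · exact (hD.row z l q h hl).le
      rw [hD.symm q l, hD.symm j l]
      linarith
    refine not_sum_eq_zero (s := Finset.univ)
      (f := fun l => (D q l - D j l - (D z q - D q j)) * v l) ?_ (Finset.mem_univ m) ?_ hsum
    · intro l _
      rcases lt_trichotomy l q with hlq | hlq | hlq
      · exact mul_nonneg (hlt l hlq).le (hmin l hlq)
      · have h1 := hD.nonneg z q
        rw [hlq, hD.diag, hD.symm j q]
        exact mul_nonneg_of_nonpos_of_nonpos (by linarith) hq.le
      · have hvl := hqle l hlq.le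
        rcases lt_trichotomy l j with hlj | hlj | hlj
        · have h1 := hD.blk q l z q hlq hzq hlq
          have h2 := hD.row q l j hlq hlj
          rw [hD.symm j l]
          exact mul_nonneg_of_nonpos_of_nonpos (by linarith) hvl
        · rw [hlj, hvj, mul_zero]
        · have h1 := hD.row q j l hqj hlj
          have h2 := hD.blk q j z q hqj hzq hqj
          exact mul_nonneg_of_nonpos_of_nonpos (by linarith) hvl
    · exact mul_pos (hlt m hmq) hm
  -- (C) at most one zero in between
  have hC : ∀ i j, m < i → i < j → j < q → False := by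
    intro i j hmi hij hjq
    refine not_sum_eq_zero (s := Finset.univ) (f := fun l => (D i l - D j l) * v l) ?_
      (Finset.mem_univ m) ?_ (he i j)
    · intro l _
      rcases le_or_gt l m with hlm | hlm
      · have h1 := hD.blk l j l i (lt_of_le_of_lt hlm (hmi.trans hij)) (lt_of_le_of_lt hlm hmi) hij
        rw [hD.symm i l, hD.symm j l]
        exact mul_nonneg (by linarith) (hlem l hlm)
      · rcases lt_or_ge l q with hlq | hlq
        · have h1 : v l = 0 := le_antisymm (hmax l hlm) (hmin l hlq)
          rw [h1, mul_zero]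
        · have h1 := hD.row i j l hij (lt_of_lt_of_le hjq hlq)
          exact mul_nonneg_of_nonpos_of_nonpos (by linarith) (hqle l hlq)
    · have h1 := hD.blk m j m i (hmi.trans hij) hmi hij
      rw [hD.symm i m, hD.symm j m]
      exact mul_pos (by linarith) hm
  refine ⟨m, fun i hi => ?_, fun i hi => ?_⟩
  · rcases eq_or_lt_of_le (show i ≤ m from hi) with h | h
    · rw [h]
      exact hm
    · exact lt_of_le_of_ne (hlem i h.le) (hA i h).symm
  · rcases lt_trichotomy i q with h | h | h
    · have hm1 : (m : ℕ) + 1 < n := lt_trans hi i.2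
      exact (hC ⟨m + 1, hm1⟩ i (show (m : ℕ) < m + 1 by omega) hi h).elim
    · rw [h]
      exact hq
    · exact lt_of_le_of_ne (hqle i h.le) (hB i h)

end Pool.Agent.Lib.MP_154a23_co
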