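import Mathlib
import Pool.Agent.Lib.MP_154a23_co.Pattern

/-!
# MP_154a23_co: maximisers of a quadratic form on the unit vectors of sum zero
-/

set_option autoImplicit false

namespace Pool.Agent.Lib.MP_154a23_co

variable {n : ℕ}

/-- `v ↦ vᵀ E v`. -/
def quad (E : Fin n → Fin n → ℝ) (v : Fin n → ℝ) : ℝ := ∑ i, v i * ∑ l, E i l * v l

/-- Unit vectors of sum zero. -/
def sph (n : ℕ) : Set (Fin n → ℝ) := {v | ∑ i, v i = 0 ∧ ∑ i, v i ^ 2 = 1}

/-- `v` maximises the form on the unit vectors of sum zero. -/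
def TopVec (E : Fin n → Fin n → ℝ) (v : Fin n → ℝ) : Prop :=
  v ∈ sph n ∧ ∀ w ∈ sph n, quad E w ≤ quad E v

theorem sph_ne_zero {v : Fin n → ℝ} (h : v ∈ sph n) : v ≠ 0 := by
  rintro rfl
  have := h.2
  simp at this

theorem quad_smul (E : Fin n → Fin n → ℝ) (c : ℝ) (v : Fin n → ℝ) :
    quad E (c • v) = c ^ 2 * quad E v := by
  unfold quad
  rw [Finset.mul_sum]
  refine Finset.sum_congr rfl fun i _ => ?_
  have h1 : ∑ l, E i l * (c • v) l = c * ∑ l, E i l * v l := by
    rw [Finset.mul_sum]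
    refine Finset.sum_congr rfl fun l _ => ?_
    rw [Pi.smul_apply, smul_eq_mul]
    ring
  rw [h1, Pi.smul_apply, smul_eq_mul]
  ring

theorem quad_add {E : Fin n → Fin n → ℝ} (hE : ∀ i j, E i j = E j i) (v w : Fin n → ℝ) (e : ℝ) :
    quad E (v + e • w) = quad E v + 2 * e * (∑ i, w i * ∑ l, E i l * v l) + e ^ 2 * quad E w := by
  unfold quad
  have h1 : ∀ i, ∑ l, E i l * (v + e • w) l = ∑ l, E i l * v l + e * ∑ l, E i l * w l := by
    intro i
    rw [Finset.mul_sum, ← Finset.sum_add_distrib]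
    refine Finset.sum_congr rfl fun l _ => ?_
    rw [Pi.add_apply, Pi.smul_apply, smul_eq_mul]
    ring
  have h2 : ∑ i, v i * ∑ l, E i l * w l = ∑ i, w i * ∑ l, E i l * v l := by
    simp only [Finset.mul_sum]
    rw [Finset.sum_comm]
    refine Finset.sum_congr rfl fun l _ => Finset.sum_congr rfl fun i _ => ?_
    rw [hE l i]
    ring
  have h3 : ∑ i, (v + e • w) i * ∑ l, E i l * (v + e • w) l =
      ∑ i, v i * ∑ l, E i l * v l + e * ∑ i, v i * ∑ l, E i l * w l +
      e * ∑ i, w i * ∑ l, E i l * v l + e ^ 2 * ∑ i, w i * ∑ l, E i l * w l := by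
    rw [Finset.mul_sum, Finset.mul_sum, Finset.mul_sum, ← Finset.sum_add_distrib,
      ← Finset.sum_add_distrib, ← Finset.sum_add_distrib]
    refine Finset.sum_congr rfl fun i _ => ?_
    rw [h1, Pi.add_apply, Pi.smul_apply, smul_eq_mul]
    ring
  rw [h3, h2]
  ring

theorem sumsq_add (v w : Fin n → ℝ) (e : ℝ) :
    ∑ i, (v + e • w) i ^ 2 = ∑ i, v i ^ 2 + 2 * e * ∑ i, w i * v i + e ^ 2 * ∑ i, w i ^ 2 := by
  rw [Finset.mul_sum, Finset.mul_sum, ← Finset.sum_add_distrib, ← Finset.sum_add_distrib]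
  refine Finset.sum_congr rfl fun i _ => ?_
  rw [Pi.add_apply, Pi.smul_apply, smul_eq_mul]
  ring

/-- The homogeneous form of the maximum property. -/
theorem TopVec.le {E : Fin n → Fin n → ℝ} {v : Fin n → ℝ} (h : TopVec E v) {w : Fin n → ℝ}
    (hw : ∑ i, w i = 0) : quad E w ≤ quad E v * ∑ i, w i ^ 2 := by
  rcases eq_or_ne (∑ i, w i ^ 2) 0 with h0 | h0
  · have h1 : w = 0 := by
      funext i
      have := (Finset.sum_eq_zero_iff_of_nonneg fun i _ => sq_nonneg (w i)).1 h0 i
        (Finset.mem_univ i)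
      simpa using this
    rw [h0, mul_zero, h1]
    simp [quad]
  · have hp : 0 < ∑ i, w i ^ 2 :=
      lt_of_le_of_ne (Finset.sum_nonneg fun i _ => sq_nonneg _) h0.symm
    let c : ℝ := (Real.sqrt (∑ i, w i ^ 2))⁻¹
    have hc : c ^ 2 * ∑ i, w i ^ 2 = 1 := by
      simp only [c]
      rw [inv_pow, Real.sq_sqrt hp.le, inv_mul_cancel₀ h0]
    have hmem : c • w ∈ sph n := by
      constructor
      · simp only [Pi.smul_apply, smul_eq_mul]
        rw [← Finset.mul_sum, hw, mul_zero]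
      · simp only [Pi.smul_apply, smul_eq_mul, mul_pow]
        rw [← Finset.mul_sum, hc]
    have h1 := h.2 _ hmem
    rw [quad_smul] at h1
    have h2 : quad E w = (c ^ 2 * quad E w) * ∑ i, w i ^ 2 := by
      calc quad E w = (c ^ 2 * ∑ i, w i ^ 2) * quad E w := by rw [hc, one_mul]
        _ = _ := by ring
    rw [h2]
    exact mul_le_mul_of_nonneg_right h1 hp.le

theorem eq_zero_of_forall {a b : ℝ} (hb : 0 ≤ b) (h : ∀ e : ℝ, 2 * e * a ≤ e ^ 2 * b) :
    a = 0 := by
  by_contra ha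
  have hb1 : 0 < b + 1 := by linarith
  have h1 := h (a / (b + 1))
  have ha2 : 0 < a ^ 2 := by positivity
  have h2 : 2 * (a / (b + 1)) * a = 2 * a ^ 2 / (b + 1) := by ring
  have h3 : (a / (b + 1)) ^ 2 * b = a ^ 2 * b / (b + 1) ^ 2 := by
    rw [div_pow, div_mul_eq_mul_div]
  rw [h2, h3, div_le_div_iff₀ hb1 (by positivity)] at h1
  nlinarith [mul_pos ha2 hb1, mul_nonneg ha2.le hb, mul_pos (mul_pos ha2 hb1) hb1]

/-- The eigenvalue equations, as differences. -/
theorem TopVec.eig {E : Fin n → Fin n → ℝ} (hE : ∀ i j, E i j = E j i) {v : Fin n → ℝ}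
    (h : TopVec E v) (i j : Fin n) :
    ∑ l, (E i l - E j l) * v l = quad E v * (v i - v j) := by
  classical
  rcases eq_or_ne i j with rfl | hij
  · simp
  let w : Fin n → ℝ := Pi.single i 1 - Pi.single j 1
  have hwsum : ∀ f : Fin n → ℝ, ∑ l, w l * f l = f i - f j := by
    intro f
    simp only [w, Pi.sub_apply, sub_mul]
    rw [Finset.sum_sub_distrib]
    simp [Pi.single_apply]
  have hw0 : ∑ l, w l = 0 := by
    have := hwsum fun _ => 1
    simpa using this
  have key : ∀ e : ℝ, 2 * e * ((∑ k, w k * ∑ l, E k l * v l) - quad E v * ∑ k, w k * v k) ≤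
      e ^ 2 * (quad E v * ∑ k, w k ^ 2 - quad E w) := by
    intro e
    have h0 : ∑ k, (v + e • w) k = 0 := by
      simp only [Pi.add_apply, Pi.smul_apply, smul_eq_mul]
      rw [Finset.sum_add_distrib, ← Finset.mul_sum, h.1.1, hw0]
      ring
    have h1 := h.le h0
    rw [quad_add hE, sumsq_add, h.1.2] at h1
    nlinarith [h1]
  have h2 := eq_zero_of_forall (sub_nonneg.2 (h.le hw0)) key
  rw [hwsum, hwsum] at h2
  have h3 : ∑ l, (E i l - E j l) * v l = ∑ l, E i l * v l - ∑ l, E j l * v l := by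
    rw [← Finset.sum_sub_distrib]
    refine Finset.sum_congr rfl fun l _ => ?_
    ring
  rw [h3]
  linarith

/-- All the entries outside of the diagonal are at least `- quad E v`. -/
theorem TopVec.entry {E : Fin n → Fin n → ℝ} (hE : ∀ i j, E i j = E j i)
    (hd : ∀ i, E i i = 0) {v : Fin n → ℝ} (h : TopVec E v) {i j : Fin n} (hij : i ≠ j) :
    0 ≤ quad E v + E i j := by
  classical
  let w : Fin n → ℝ := Pi.single i 1 - Pi.single j 1
  have hwsum : ∀ f : Fin n → ℝ, ∑ l, w l * f l = f i - f j := by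
    intro f
    simp only [w, Pi.sub_apply, sub_mul]
    rw [Finset.sum_sub_distrib]
    simp [Pi.single_apply]
  have hw0 : ∑ l, w l = 0 := by
    have := hwsum fun _ => 1
    simpa using this
  have hwi : w i = 1 := by simp [w, hij]
  have hwj : w j = -1 := by simp [w, hij.symm]
  have h1 := h.le hw0
  have h2 : ∑ l, w l ^ 2 = 2 := by
    have := hwsum w
    simp only [pow_two]
    rw [this, hwi, hwj]
    norm_num
  have h3 : ∀ k, ∑ l, E k l * w l = E k i - E k j := by
    intro k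
    rw [← hwsum (E k)]
    refine Finset.sum_congr rfl fun l _ => ?_
    ring
  have h4 : quad E w = -2 * E i j := by
    unfold quad
    simp only [h3]
    rw [hwsum, hd, hd, hE j i]
    ring
  rw [h2, h4] at h1
  linarith

theorem isClosed_sph (n : ℕ) : IsClosed (sph n) := by
  have h1 : IsClosed {v : Fin n → ℝ | ∑ i, v i = 0} :=
    isClosed_eq (by fun_prop) continuous_const
  have h2 : IsClosed {v : Fin n → ℝ | ∑ i, v i ^ 2 = 1} :=
    isClosed_eq (by fun_prop) continuous_const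
  exact h1.inter h2

theorem isCompact_sph (n : ℕ) : IsCompact (sph n) := by
  refine (isCompact_univ_pi fun _ : Fin n => isCompact_Icc (a := (-1 : ℝ)) (b := 1)).of_isClosed_subset
    (isClosed_sph n) ?_
  intro v hv i _
  have h1 : v i ^ 2 ≤ 1 := by
    rw [← hv.2]
    exact Finset.single_le_sum (f := fun i => v i ^ 2) (fun i _ => sq_nonneg _)
      (Finset.mem_univ i)
  exact abs_le.1 ((sq_le_one_iff_abs_le_one (v i)).1 h1)

end Pool.Agent.Lib.MP_154a23_co
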