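import Mathlib
import Pool.Agent.Lib.MP_154a23_co.TopVec

/-!
# MP_154a23_co: all maximisers have the sign pattern

The matrix of squared distances is joined by a segment to the adjacency matrix of the single edge
`{0, 1}`. Along this segment the sign pattern cannot change.
-/

set_option autoImplicit false

namespace Pool.Agent.Lib.MP_154a23_co

variable {n : ℕ}

/-- The nested order, without a sign condition. -/
structure Pre (D : Fin n → Fin n → ℝ) : Prop where
  symm : ∀ i j, D i j = D j i
  diag : ∀ i, D i i = 0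
  blk : ∀ i j k l, i < j → k < l → l < j → D i j < D k l
  row : ∀ i k j, i < k → k < j → D i j < D k j

/-- The adjacency matrix of the edge `{0, 1}`. -/
def edge (i j : Fin n) : ℝ := if (i : ℕ) + (j : ℕ) = 1 then 1 else 0

/-- The segment from `D` to the edge. -/
def hom (D : Fin n → Fin n → ℝ) (t : ℝ) (i j : Fin n) : ℝ := (1 - t) * D i j + t * edge i j

theorem edge_symm (i j : Fin n) : edge i j = edge j i := by
  unfold edge
  rw [add_comm]

theorem edge_diag (i : Fin n) : edge i i = 0 := by
  unfold edge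
  rw [if_neg (by omega)]

theorem edge_nonneg (i j : Fin n) : 0 ≤ edge i j := by
  unfold edge
  split_ifs <;> norm_num

theorem hom_symm {D : Fin n → Fin n → ℝ} (hD : Pre D) (t : ℝ) (i j : Fin n) :
    hom D t i j = hom D t j i := by
  unfold hom
  rw [hD.symm, edge_symm]

theorem hom_diag {D : Fin n → Fin n → ℝ} (hD : Pre D) (t : ℝ) (i : Fin n) :
    hom D t i i = 0 := by
  unfold hom
  rw [hD.diag, edge_diag]
  ring

theorem hom_pre {D : Fin n → Fin n → ℝ} (hD : Pre D) {t : ℝ} (ht0 : 0 ≤ t) (ht1 : t < 1) :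
    Pre (hom D t) where
  symm := hom_symm hD t
  diag := hom_diag hD t
  blk i j k l hij hkl hlj := by
    have h1 : edge i j = 0 := by
      unfold edge
      have h2 : (k : ℕ) < l := hkl
      have h3 : (l : ℕ) < j := hlj
      rw [if_neg (by omega)]
    have h2 := mul_lt_mul_of_pos_left (hD.blk i j k l hij hkl hlj) (sub_pos.2 ht1)
    have h3 := mul_nonneg ht0 (edge_nonneg k l)
    unfold hom
    rw [h1, mul_zero]
    linarith
  row i k j hik hkj := by
    have h1 : edge i j = 0 := by
      unfold edge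
      have h2 : (i : ℕ) < k := hik
      have h3 : (k : ℕ) < j := hkj
      rw [if_neg (by omega)]
    have h2 := mul_lt_mul_of_pos_left (hD.row i k j hik hkj) (sub_pos.2 ht1)
    have h3 := mul_nonneg ht0 (edge_nonneg k j)
    unfold hom
    rw [h1, mul_zero]
    linarith

theorem nested_shift {E : Fin n → Fin n → ℝ} (hE : Pre E) {c : ℝ}
    (h : ∀ i j, i ≠ j → 0 ≤ c + E i j) :
    Nested fun i j => c + E i j - c * (if i = j then 1 else 0) where
  symm i j := by
    rw [hE.symm i j]
    simp only [eq_comm]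
  diag i := by
    rw [hE.diag, if_pos rfl]
    ring
  nonneg i j := by
    by_cases hij : i = j
    · rw [hij, hE.diag, if_pos rfl]
      linarith
    · rw [if_neg hij]
      have := h i j hij
      linarith
  blk i j k l hij hkl hlj := by
    rw [if_neg hij.ne, if_neg hkl.ne]
    have := hE.blk i j k l hij hkl hlj
    linarith
  row i k j hik hkj := by
    rw [if_neg (hik.trans hkj).ne, if_neg hkj.ne]
    have := hE.row i k j hik hkj
    linarith

/-- The weak pattern of eigenvectors is strict. -/
theorem strict_of_top {E : Fin n → Fin n → ℝ} (hE : Pre E) {v w : Fin n → ℝ}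
    (hw : TopVec E w) (hs : ∑ i, v i = 0)
    (he : ∀ i j, ∑ l, (E i l - E j l) * v l = quad E w * (v i - v j)) (h0 : v ≠ 0)
    (hv : Weak v) : Strict v := by
  refine strict_of_weak (nested_shift hE fun i j hij => hw.entry hE.symm hE.diag hij) hs ?_ h0 hv
  intro i j
  have h1 : ∀ l, ((quad E w + E i l - quad E w * (if i = l then 1 else 0)) -
      (quad E w + E j l - quad E w * (if j = l then 1 else 0))) * v l =
      (E i l - E j l) * v l - quad E w * ((if i = l then v l else 0) - if j = l then v l else 0) := by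
    intro l
    split_ifs <;> ring
  rw [Finset.sum_congr rfl fun l _ => h1 l, Finset.sum_sub_distrib, he, ← Finset.mul_sum,
    Finset.sum_sub_distrib]
  simp

theorem neg_eig {E : Fin n → Fin n → ℝ} {c : ℝ} {v : Fin n → ℝ}
    (he : ∀ i j, ∑ l, (E i l - E j l) * v l = c * (v i - v j)) (i j : Fin n) :
    ∑ l, (E i l - E j l) * (-v) l = c * ((-v) i - (-v) j) := by
  have h1 := he i j
  simp only [Pi.neg_apply, mul_neg, Finset.sum_neg_distrib, h1]
  ring

theorem strict_of_top' {E : Fin n → Fin n → ℝ} (hE : Pre E) {v w : Fin n → ℝ}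
    (hw : TopVec E w) (hs : ∑ i, v i = 0)
    (he : ∀ i j, ∑ l, (E i l - E j l) * v l = quad E w * (v i - v j)) (h0 : v ≠ 0)
    (hv : Weak v ∨ Weak (-v)) : Strict v ∨ Strict (-v) := by
  rcases hv with h | h
  · exact Or.inl (strict_of_top hE hw hs he h0 h)
  · refine Or.inr (strict_of_top hE hw ?_ (neg_eig he) (neg_ne_zero.2 h0) h)
    simp only [Pi.neg_apply, Finset.sum_neg_distrib, hs, neg_zero]

/-! ## The end of the segment -/

theorem edge_row (hn : 1 < n) (i : Fin n) (f : Fin n → ℝ) :
    ∑ l, edge i l * f l = if (i : ℕ) = 0 then f ⟨1, hn⟩ else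
      if (i : ℕ) = 1 then f ⟨0, by omega⟩ else 0 := by
  split_ifs with h0 h1
  · rw [Finset.sum_eq_single (⟨1, hn⟩ : Fin n)]
    · simp [edge, h0]
    · intro l _ hl
      have h2 : (l : ℕ) ≠ 1 := fun h => hl (Fin.ext h)
      simp [edge, h0, h2]
    · simp
  · rw [Finset.sum_eq_single (⟨0, by omega⟩ : Fin n)]
    · simp [edge, h1]
    · intro l _ hl
      have h2 : (l : ℕ) ≠ 0 := fun h => hl (Fin.ext h)
      simp [edge, h1, h2]
    · simp
  · refine Finset.sum_eq_zero fun l _ => ?_
    have h2 : ¬ ((i : ℕ) + l = 1) := by omega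
    simp [edge, h2]

theorem edge_quad_pos (hn : 3 ≤ n) {v : Fin n → ℝ} (h : TopVec (edge (n := n)) v) :
    0 < quad (edge (n := n)) v := by
  let a : Fin n := ⟨0, by omega⟩
  let b : Fin n := ⟨1, by omega⟩
  let c : Fin n := ⟨2, by omega⟩
  have hab : a ≠ b := by simp [a, b]
  have hac : a ≠ c := by simp [a, c]
  have hbc : b ≠ c := by simp [b, c]
  let w : Fin n → ℝ := Pi.single a 1 + Pi.single b 1 - 2 • Pi.single c 1
  have hwsum : ∀ f : Fin n → ℝ, ∑ l, w l * f l = f a + f b - 2 * f c := by
    intro f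
    simp only [w, Pi.sub_apply, Pi.add_apply, Pi.smul_apply, sub_mul, add_mul]
    rw [Finset.sum_sub_distrib, Finset.sum_add_distrib]
    simp [Pi.single_apply, two_mul, ite_mul]
  have hw0 : ∑ l, w l = 0 := by
    have := hwsum fun _ => 1
    simp only [mul_one] at this
    rw [this]
    norm_num
  have hwa : w a = 1 := by simp [w, hab, hac]
  have hwb : w b = 1 := by simp [w, hab.symm, hbc]
  have h1 := h.le hw0
  have h2 : quad (edge (n := n)) w = 2 := by
    unfold quad
    rw [hwsum, edge_row (by omega), edge_row (by omega), edge_row (by omega)]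
    simp only [a, b, c] at hwa hwb ⊢
    simp [hwa, hwb]
    norm_num
  rw [h2] at h1
  by_contra hcon
  have h3 : 0 ≤ ∑ l, w l ^ 2 := Finset.sum_nonneg fun i _ => sq_nonneg _
  nlinarith [mul_nonneg (neg_nonneg.2 (not_lt.1 hcon)) h3]

theorem edge_top (hn : 3 ≤ n) {v : Fin n → ℝ} (h : TopVec (edge (n := n)) v) :
    Strict v ∨ Strict (-v) := by
  have hpos := edge_quad_pos hn h
  let a : Fin n := ⟨0, by omega⟩
  let b : Fin n := ⟨1, by omega⟩
  let c : Fin n := ⟨2, by omega⟩
  have he := h.eig edge_symm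
  have hrow : ∀ i j : Fin n, ∑ l, edge i l * v l - ∑ l, edge j l * v l =
      quad (edge (n := n)) v * (v i - v j) := by
    intro i j
    rw [← he i j, ← Finset.sum_sub_distrib]
    refine Finset.sum_congr rfl fun l _ => ?_
    ring
  have h1 : v a = v b := by
    have h2 := hrow a b
    rw [edge_row (by omega), edge_row (by omega)] at h2
    simp only [a, b] at h2 ⊢
    simp at h2
    have h3 : (1 + quad (edge (n := n)) v) * (v ⟨0, by omega⟩ - v ⟨1, by omega⟩) = 0 := by
      linarith
    rcases mul_eq_zero.1 h3 with h4 | h4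
    · linarith
    · linarith
  have h2 : ∀ i : Fin n, 1 < (i : ℕ) → v i = v c := by
    intro i hi
    have h3 := hrow i c
    rw [edge_row (by omega), edge_row (by omega), if_neg (by omega), if_neg (by omega)] at h3
    simp [c] at h3
    rcases h3 with h4 | h4
    · exact absurd h4 hpos.ne'
    · have : v i = v ⟨2, by omega⟩ := by linarith
      exact this
  have hval : ∀ i : Fin n, v i = v a ∨ v i = v c := by
    intro i
    rcases Nat.lt_or_ge 1 (i : ℕ) with hi | hi
    · exact Or.inr (h2 i hi)
    · left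
      interval_cases hh : (i : ℕ)
      · exact congrArg v (Fin.ext hh)
      · rw [h1]
        exact congrArg v (Fin.ext hh)
  have hle : ∀ i : Fin n, (i : ℕ) ≤ 1 → v i = v a := by
    intro i hi
    interval_cases hh : (i : ℕ)
    · exact congrArg v (Fin.ext hh)
    · rw [h1]
      exact congrArg v (Fin.ext hh)
  have hs := h.1.1
  have hnz := sph_ne_zero h.1
  rcases lt_trichotomy (v a) 0 with ha | ha | ha
  · have hc : 0 < v c := by
      by_contra hcon
      have h3 : 0 < ∑ i, -v i := by
        refine Finset.sum_pos' (fun i _ => ?_) ⟨a, Finset.mem_univ _, by linarith⟩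
        rcases hval i with h4 | h4 <;> rw [h4] <;> linarith
      rw [Finset.sum_neg_distrib, hs] at h3
      simp at h3
    right
    refine ⟨1, fun i hi => ?_, fun i hi => ?_⟩
    · rw [Pi.neg_apply, hle i hi]
      linarith
    · rw [Pi.neg_apply, h2 i (by omega)]
      linarith
  · exfalso
    have hc : v c = 0 := by
      rcases lt_trichotomy (v c) 0 with hc | hc | hc
      · exfalso
        have h3 : 0 < ∑ i, -v i := by
          refine Finset.sum_pos' (fun i _ => ?_) ⟨c, Finset.mem_univ _, by linarith⟩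
          rcases hval i with h4 | h4 <;> rw [h4] <;> linarith
        rw [Finset.sum_neg_distrib, hs] at h3
        simp at h3
      · exact hc
      · exfalso
        have h3 : 0 < ∑ i, v i := by
          refine Finset.sum_pos' (fun i _ => ?_) ⟨c, Finset.mem_univ _, hc⟩
          rcases hval i with h4 | h4 <;> rw [h4] <;> linarith
        rw [hs] at h3
        exact lt_irrefl _ h3
    apply hnz
    funext i
    rcases hval i with h4 | h4
    · rw [h4, ha]
      rfl
    · rw [h4, hc]
      rfl
  · have hc : v c < 0 := by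
      by_contra hcon
      have h3 : 0 < ∑ i, v i := by
        refine Finset.sum_pos' (fun i _ => ?_) ⟨a, Finset.mem_univ _, ha⟩
        rcases hval i with h4 | h4 <;> rw [h4] <;> linarith
      rw [hs] at h3
      exact lt_irrefl _ h3
    left
    refine ⟨1, fun i hi => ?_, fun i hi => ?_⟩
    · rw [hle i hi]
      exact ha
    · rw [h2 i (by omega)]
      exact hc

/-! ## Closed and open conditions -/

theorem isClosed_weak : IsClosed {v : Fin n → ℝ | Weak v} := by
  have : {v : Fin n → ℝ | Weak v} =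
      ⋂ i : Fin n, ⋂ j : Fin n, ⋂ _ : i < j, {v : Fin n → ℝ | 0 ≤ v i} ∪ {v | v j ≤ 0} := by
    ext v
    simp [Weak]
  rw [this]
  refine isClosed_iInter fun i => isClosed_iInter fun j => isClosed_iInter fun _ => ?_
  exact (isClosed_le continuous_const (continuous_apply i)).union
    (isClosed_le (continuous_apply j) continuous_const)

theorem isOpen_strict : IsOpen {v : Fin n → ℝ | Strict v} := by
  have : {v : Fin n → ℝ | Strict v} = ⋃ m : ℕ,
      ((⋂ i : Fin n, {v : Fin n → ℝ | (i : ℕ) ≤ m → 0 < v i}) ∩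
        ⋂ i : Fin n, {v : Fin n → ℝ | m + 1 < (i : ℕ) → v i < 0}) := by
    ext v
    simp [Strict]
  rw [this]
  refine isOpen_iUnion fun m => IsOpen.inter ?_ ?_
  · refine isOpen_iInter_of_finite fun i => ?_
    by_cases h : (i : ℕ) ≤ m
    · simp only [h, forall_true_left]
      exact isOpen_lt continuous_const (continuous_apply i)
    · simp only [h, false_imp_iff]
      exact isOpen_univ
  · refine isOpen_iInter_of_finite fun i => ?_
    by_cases h : m + 1 < (i : ℕ)
    · simp only [h, forall_true_left]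
      exact isOpen_lt (continuous_apply i) continuous_const
    · simp only [h, false_imp_iff]
      exact isOpen_univ

theorem isClosed_weak' : IsClosed {v : Fin n → ℝ | Weak v ∨ Weak (-v)} :=
  isClosed_weak.union (isClosed_weak.preimage continuous_neg)

theorem isOpen_strict' : IsOpen {v : Fin n → ℝ | Strict v ∨ Strict (-v)} :=
  isOpen_strict.union (isOpen_strict.preimage continuous_neg)

theorem weak_smul {v : Fin n → ℝ} (h : Weak v) {c : ℝ} (hc : 0 ≤ c) : Weak (c • v) := by
  intro i j hij
  rcases h i j hij with h1 | h1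
  · exact Or.inl (mul_nonneg hc h1)
  · exact Or.inr (mul_nonpos_of_nonneg_of_nonpos hc h1)

theorem weak_smul' {v : Fin n → ℝ} (h : Weak v ∨ Weak (-v)) (c : ℝ) :
    Weak (c • v) ∨ Weak (-(c • v)) := by
  rcases le_total 0 c with hc | hc
  · rcases h with h | h
    · exact Or.inl (weak_smul h hc)
    · right
      rw [← smul_neg]
      exact weak_smul h hc
  · rcases h with h | h
    · right
      rw [← neg_smul]
      exact weak_smul h (neg_nonneg.2 hc)
    · left
      have := weak_smul h (neg_nonneg.2 hc)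
      rwa [smul_neg, neg_smul, neg_neg] at this

/-! ## The homotopy -/

theorem continuous_quad_hom (D : Fin n → Fin n → ℝ) :
    Continuous fun x : ℝ × (Fin n → ℝ) => quad (hom D x.1) x.2 := by
  unfold quad hom
  fun_prop

theorem continuous_quad_hom' (D : Fin n → Fin n → ℝ) (w : Fin n → ℝ) :
    Continuous fun x : ℝ × (Fin n → ℝ) => quad (hom D x.1) w := by
  unfold quad hom
  fun_prop

theorem isCompact_tops (D : Fin n → Fin n → ℝ) :
    IsCompact {x : ℝ × (Fin n → ℝ) | x.1 ∈ Set.Icc (0 : ℝ) 1 ∧ TopVec (hom D x.1) x.2} := by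
  have h1 : IsCompact (Set.Icc (0 : ℝ) 1 ×ˢ sph n) := isCompact_Icc.prod (isCompact_sph n)
  have h2 : IsClosed (⋂ w ∈ sph n,
      {x : ℝ × (Fin n → ℝ) | quad (hom D x.1) w ≤ quad (hom D x.1) x.2}) :=
    isClosed_biInter fun w _ => isClosed_le (continuous_quad_hom' D w) (continuous_quad_hom D)
  have h3 : {x : ℝ × (Fin n → ℝ) | x.1 ∈ Set.Icc (0 : ℝ) 1 ∧ TopVec (hom D x.1) x.2} =
      (Set.Icc (0 : ℝ) 1 ×ˢ sph n) ∩ (⋂ w ∈ sph n,
        {x : ℝ × (Fin n → ℝ) | quad (hom D x.1) w ≤ quad (hom D x.1) x.2}) := by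
    ext x
    simp only [Set.mem_ofPred_eq, Set.mem_inter_iff, Set.mem_prod, Set.mem_iInter, TopVec]
    tauto
  rw [h3]
  exact h1.inter_right h2

theorem exists_top {E : Fin n → Fin n → ℝ} (h : (sph n).Nonempty) : ∃ v, TopVec E v := by
  have hc : Continuous (quad E) := by
    unfold quad
    fun_prop
  obtain ⟨v, hv, hmax⟩ := (isCompact_sph n).exists_isMaxOn h hc.continuousOn
  exact ⟨v, hv, fun w hw => hmax hw⟩

/-- Two maximisers of one form: both have the pattern or none. -/
theorem segment {E : Fin n → Fin n → ℝ} (hE : Pre E) {v u : Fin n → ℝ} (hv : TopVec E v)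
    (hu : TopVec E u) (h : Weak v ∨ Weak (-v)) : Strict u ∨ Strict (-u) := by
  by_contra hcon
  have hq : quad E u = quad E v := le_antisymm (hv.2 u hu.1) (hu.2 v hv.1)
  have hev := hv.eig hE.symm
  have heu := hu.eig hE.symm
  rw [hq] at heu
  let g : ℝ → Fin n → ℝ := fun s => (1 - s) • v + s • u
  have hg : Continuous g := by
    simp only [g]
    fun_prop
  have hgs : ∀ s, ∑ i, g s i = 0 := by
    intro s
    simp only [g, Pi.add_apply, Pi.smul_apply, smul_eq_mul]
    rw [Finset.sum_add_distrib, ← Finset.mul_sum, ← Finset.mul_sum, hv.1.1, hu.1.1]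
    ring
  have hge : ∀ s i j, ∑ l, (E i l - E j l) * g s l = quad E v * (g s i - g s j) := by
    intro s i j
    have h1 : ∑ l, (E i l - E j l) * g s l =
        (1 - s) * ∑ l, (E i l - E j l) * v l + s * ∑ l, (E i l - E j l) * u l := by
      rw [Finset.mul_sum, Finset.mul_sum, ← Finset.sum_add_distrib]
      refine Finset.sum_congr rfl fun l _ => ?_
      simp only [g, Pi.add_apply, Pi.smul_apply, smul_eq_mul]
      ring
    rw [h1, hev, heu]
    simp only [g, Pi.add_apply, Pi.smul_apply, smul_eq_mul]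
    ring
  have hg0 : ∀ s, g s ≠ 0 := by
    intro s hs0
    by_cases hs : s = 0
    · rw [hs] at hs0
      simp only [g, sub_zero, one_smul, zero_smul, add_zero] at hs0
      exact sph_ne_zero hv.1 hs0
    · have h1 : u = (-((1 - s) / s)) • v := by
        have h2 : s • u = -((1 - s) • v) := by
          rw [eq_neg_iff_add_eq_zero, add_comm]
          exact hs0
        have h3 : u = s⁻¹ • (s • u) := by
          rw [smul_smul, inv_mul_cancel₀ hs, one_smul]
        rw [h3, h2, smul_neg, smul_smul, neg_smul]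
        congr 2
        rw [div_eq_mul_inv, mul_comm]
      have h2 : Weak u ∨ Weak (-u) := by
        rw [h1]
        exact weak_smul' h _
      refine hcon (strict_of_top' hE hv hu.1.1 heu (sph_ne_zero hu.1) h2)
  have hpre := isPreconnected_closed_iff.1 (isPreconnected_Icc (a := (0 : ℝ)) (b := 1))
    {s | Weak (g s) ∨ Weak (-(g s))} {s | ¬ (Strict (g s) ∨ Strict (-(g s)))}
    (isClosed_weak'.preimage hg) ((isOpen_strict'.preimage hg).isClosed_compl) ?_ ?_ ?_
  · obtain ⟨s, -, hs1, hs2⟩ := hpre
    exact hs2 (strict_of_top' hE hv (hgs s) (hge s) (hg0 s) hs1)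
  · intro s _
    by_cases hs : Strict (g s) ∨ Strict (-(g s))
    · left
      rcases hs with hs | hs
      · exact Or.inl hs.weak
      · exact Or.inr hs.weak
    · exact Or.inr hs
  · refine ⟨0, ⟨le_refl _, zero_le_one⟩, ?_⟩
    have h1 : g 0 = v := by simp [g]
    change Weak (g 0) ∨ Weak (-(g 0))
    rw [h1]
    exact h
  · refine ⟨1, ⟨zero_le_one, le_refl _⟩, ?_⟩
    have h1 : g 1 = u := by simp [g]
    change ¬ (Strict (g 1) ∨ Strict (-(g 1)))
    rw [h1]
    exact hcon

/-- **All maximisers have the sign pattern.** -/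
theorem top_strict {D : Fin n → Fin n → ℝ} (hD : Pre D) (hn : 3 ≤ n) {u : Fin n → ℝ}
    (hu : TopVec D u) : Strict u ∨ Strict (-u) := by
  by_contra hcon
  have hne : (sph n).Nonempty := ⟨u, hu.1⟩
  have hK := isCompact_tops D
  have hone : hom D 1 = edge := by
    funext i j
    simp [hom]
  have hzero : hom D 0 = D := by
    funext i j
    simp [hom]
  have hA : IsCompact (Prod.fst '' ({x : ℝ × (Fin n → ℝ) | x.1 ∈ Set.Icc (0 : ℝ) 1 ∧
      TopVec (hom D x.1) x.2} ∩ {x | Weak x.2 ∨ Weak (-x.2)})) :=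
    (hK.inter_right (isClosed_weak'.preimage continuous_snd)).image continuous_fst
  have hB : IsCompact (Prod.fst '' ({x : ℝ × (Fin n → ℝ) | x.1 ∈ Set.Icc (0 : ℝ) 1 ∧
      TopVec (hom D x.1) x.2} ∩ {x | ¬ (Strict x.2 ∨ Strict (-x.2))})) :=
    (hK.inter_right ((isOpen_strict'.preimage continuous_snd).isClosed_compl)).image
      continuous_fst
  have hpre := isPreconnected_closed_iff.1 (isPreconnected_Icc (a := (0 : ℝ)) (b := 1))
    _ _ hA.isClosed hB.isClosed ?_ ?_ ?_
  · obtain ⟨t, ht, ⟨⟨t1, v⟩, ⟨⟨-, hv⟩, hvw⟩, rfl⟩, ⟨⟨t2, w⟩, ⟨⟨-, hw⟩, hws⟩, h12⟩⟩ := hpre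
    simp only at h12 hv hw ht
    subst h12
    rcases eq_or_lt_of_le ht.2 with h1 | h1
    · rw [h1, hone] at hw
      exact hws (edge_top hn hw)
    · exact hws (segment (hom_pre hD ht.1 h1) hv hw hvw)
  · intro t ht
    obtain ⟨v, hv⟩ := exists_top (E := hom D t) hne
    by_cases hs : Strict v ∨ Strict (-v)
    · left
      refine ⟨(t, v), ⟨⟨ht, hv⟩, ?_⟩, rfl⟩
      rcases hs with hs | hs
      · exact Or.inl hs.weak
      · exact Or.inr hs.weak
    · right
      exact ⟨(t, v), ⟨⟨ht, hv⟩, hs⟩, rfl⟩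
  · obtain ⟨v, hv⟩ := exists_top (E := hom D 1) hne
    have hv1 := hv
    rw [hone] at hv1
    refine ⟨1, ⟨zero_le_one, le_refl _⟩, (1, v), ⟨⟨⟨zero_le_one, le_refl _⟩, hv⟩, ?_⟩, rfl⟩
    rcases edge_top hn hv1 with hs | hs
    · exact Or.inl hs.weak
    · exact Or.inr hs.weak
  · refine ⟨0, ⟨le_refl _, zero_le_one⟩, (0, u), ⟨⟨⟨le_refl _, zero_le_one⟩, ?_⟩, hcon⟩, rfl⟩
    change TopVec (hom D 0) u
    rw [hzero]
    exact hu

end Pool.Agent.Lib.MP_154a23_co
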