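import Mathlib

namespace Pool.Agent.Lib.MP_154a23_co

open Finset

/-- The linear algebra core: a Perron–Frobenius type argument with a shift. -/
theorem key {m : ℕ} (N : Fin (m + 1) → Fin (m + 1) → ℝ) (s : Fin (m + 1) → ℝ)
    (hsym : ∀ i j, N i j = N j i)
    (hpos : ∀ i j, i ≠ j → 0 < N i j)
    (hshift : ∀ i j : Fin m, N i.succ j.succ ≤ N i.castSucc j.castSucc)
    (hs : ∀ i : Fin m, s i.succ = - s i.castSucc)
    (hQ : ∀ z : Fin (m + 1) → ℝ, ∑ i, s i * z i = 0 → ∑ i, ∑ j, N i j * z i * z j ≤ 0)
    (y : Fin (m + 1) → ℝ) (hy0 : y ≠ 0) (hy : ∀ i, ∑ j, N i j * y j = 0)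
    (hys : ∑ i, s i * y i = 0)
    (w : Fin (m + 1) → ℝ) (hw0 : w 0 = 0) (hw : w ≠ 0)
    (hQw : ∑ i, ∑ j, N i j * w i * w j = 0) : False := by
  -- wlog y 0 ≥ 0
  wlog hy00 : 0 ≤ y 0 generalizing y with H
  · refine H (-y) (by simpa using hy0) ?_ ?_ ?_
    · intro i
      have := hy i
      simp only [Pi.neg_apply, mul_neg, Finset.sum_neg_distrib, this, neg_zero]
    · simp only [Pi.neg_apply, mul_neg, Finset.sum_neg_distrib, hys, neg_zero]
    · simp only [Pi.neg_apply]; linarith
  by_cases hneg : ∃ j, y j < 0
  · -- Case A or all nonpositive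
    obtain ⟨j0, hj0⟩ := hneg
    by_cases hposy : ∃ i, 0 < y i
    · obtain ⟨i0, hi0⟩ := hposy
      set P : Fin (m + 1) → ℝ := fun i => max (y i) 0 with hP
      set Z : Fin (m + 1) → ℝ := fun i => max (-(y i)) 0 with hZ
      have hPZ : ∀ i, P i - Z i = y i := by
        intro i
        simp only [hP, hZ]
        rcases le_total (y i) 0 with h | h
        · rw [max_eq_right h, max_eq_left (by linarith)]; ring
        · rw [max_eq_left h, max_eq_right (by linarith)]; ring
      have hP0 : ∀ i, 0 ≤ P i := fun i => le_max_right _ _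
      have hZ0 : ∀ i, 0 ≤ Z i := fun i => le_max_right _ _
      have hZz : Z 0 = 0 := by simp only [hZ]; exact max_eq_right (by linarith)
      have hg : ∀ i, ∑ j, N i j * P j = ∑ j, N i j * Z j := by
        intro i
        have := hy i
        rw [← sub_eq_zero, ← Finset.sum_sub_distrib, ← this]
        refine Finset.sum_congr rfl fun j _ => ?_
        rw [← hPZ j]; ring
      -- g ≥ 0
      have hg0 : ∀ i, 0 ≤ ∑ j, N i j * P j := by
        intro i
        rcases le_total (y i) 0 with h | h
        · refine Finset.sum_nonneg fun j _ => ?_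
          by_cases hij : i = j
          · subst hij
            have : P i = 0 := max_eq_right h
            rw [this]; simp
          · exact mul_nonneg (hpos i j hij).le (hP0 j)
        · rw [hg]
          refine Finset.sum_nonneg fun j _ => ?_
          by_cases hij : i = j
          · subst hij
            have : Z i = 0 := max_eq_right (by linarith)
            rw [this]; simp
          · exact mul_nonneg (hpos i j hij).le (hZ0 j)
      -- Q(P) > 0
      have hQP : 0 < ∑ i, ∑ j, N i j * P i * P j := by
        have e : ∀ i, ∑ j, N i j * P i * P j = P i * ∑ j, N i j * P j := by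
          intro i; rw [Finset.mul_sum]; refine Finset.sum_congr rfl fun j _ => by ring
        simp only [e]
        refine Finset.sum_pos' (fun i _ => mul_nonneg (hP0 i) (hg0 i)) ⟨i0, mem_univ _, ?_⟩
        have hPi : 0 < P i0 := lt_max_of_lt_left hi0
        refine mul_pos hPi ?_
        rw [hg]
        refine Finset.sum_pos' (fun j _ => ?_) ⟨j0, mem_univ _, ?_⟩
        · by_cases hij : i0 = j
          · subst hij
            have : Z i0 = 0 := max_eq_right (by linarith)
            rw [this]; simp
          · exact mul_nonneg (hpos _ j hij).le (hZ0 j)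
        · have hne : i0 ≠ j0 := by rintro rfl; linarith
          exact mul_pos (hpos _ _ hne) (lt_max_of_lt_left (by linarith))
      -- Q(Z) ≥ 0
      have hQZ : 0 ≤ ∑ i, ∑ j, N i j * Z i * Z j := by
        have e : ∀ i, ∑ j, N i j * Z i * Z j = Z i * ∑ j, N i j * P j := by
          intro i; rw [hg, Finset.mul_sum]; refine Finset.sum_congr rfl fun j _ => by ring
        simp only [e]
        exact Finset.sum_nonneg (fun i _ => mul_nonneg (hZ0 i) (hg0 i))
      -- the shift
      set T : Fin (m + 1) → ℝ := Fin.snoc (α := fun _ => ℝ) (fun k : Fin m => Z k.succ) 0 with hT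
      have hTc : ∀ k : Fin m, T k.castSucc = Z k.succ := by
        intro k; simp [hT]
      have hTl : T (Fin.last m) = 0 := by simp [hT]
      have hT0 : ∀ i, 0 ≤ T i := by
        intro i
        refine Fin.lastCases ?_ (fun k => ?_) i
        · rw [hTl]
        · rw [hTc]; exact hZ0 _
      have hQT : ∑ i, ∑ j, N i j * Z i * Z j ≤ ∑ i, ∑ j, N i j * T i * T j := by
        have e1 : ∑ i, ∑ j, N i j * Z i * Z j
            = ∑ i : Fin m, ∑ j : Fin m, N i.succ j.succ * Z i.succ * Z j.succ := by
          rw [Fin.sum_univ_succ]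
          have : ∑ j, N 0 j * Z 0 * Z j = 0 := by simp [hZz]
          rw [this, zero_add]
          refine Finset.sum_congr rfl fun i _ => ?_
          rw [Fin.sum_univ_succ]
          simp [hZz]
        have e2 : ∑ i, ∑ j, N i j * T i * T j
            = ∑ i : Fin m, ∑ j : Fin m, N i.castSucc j.castSucc * Z i.succ * Z j.succ := by
          rw [Fin.sum_univ_castSucc]
          have : ∑ j, N (Fin.last m) j * T (Fin.last m) * T j = 0 := by simp [hTl]
          rw [this, add_zero]
          refine Finset.sum_congr rfl fun i _ => ?_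
          rw [Fin.sum_univ_castSucc]
          simp [hTl, hTc]
        rw [e1, e2]
        refine Finset.sum_le_sum fun i _ => Finset.sum_le_sum fun j _ => ?_
        exact mul_le_mul_of_nonneg_right
          (mul_le_mul_of_nonneg_right (hshift i j) (hZ0 _)) (hZ0 _)
      -- cross term
      have hcross : 0 ≤ ∑ i, ∑ j, N i j * T i * P j := by
        have e : ∀ i, ∑ j, N i j * T i * P j = T i * ∑ j, N i j * P j := by
          intro i; rw [Finset.mul_sum]; refine Finset.sum_congr rfl fun j _ => by ring
        simp only [e]
        exact Finset.sum_nonneg (fun i _ => mul_nonneg (hT0 i) (hg0 i))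
      have hcross' : ∑ i, ∑ j, N i j * P i * T j = ∑ i, ∑ j, N i j * T i * P j := by
        rw [Finset.sum_comm]
        refine Finset.sum_congr rfl fun i _ => Finset.sum_congr rfl fun j _ => ?_
        rw [hsym j i]; ring
      -- sign sum
      have hsum : ∑ i, s i * (P i + T i) = 0 := by
        have e1 : ∑ i, s i * T i = - ∑ i, s i * Z i := by
          rw [Fin.sum_univ_castSucc, Fin.sum_univ_succ (f := fun i => s i * Z i)]
          rw [hTl, hZz, mul_zero, mul_zero, add_zero, zero_add, ← Finset.sum_neg_distrib]
          refine Finset.sum_congr rfl fun i _ => ?_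
          rw [hTc, hs]; ring
        have e2 : ∑ i, s i * P i - ∑ i, s i * Z i = 0 := by
          rw [← Finset.sum_sub_distrib, ← hys]
          refine Finset.sum_congr rfl fun i _ => ?_
          rw [← hPZ i]; ring
        calc ∑ i, s i * (P i + T i) = ∑ i, s i * P i + ∑ i, s i * T i := by
              rw [← Finset.sum_add_distrib]
              exact Finset.sum_congr rfl fun i _ => by ring
          _ = 0 := by rw [e1]; linarith
      have hfin := hQ (fun i => P i + T i) hsum
      have hexp : ∑ i, ∑ j, N i j * (P i + T i) * (P j + T j)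
          = ∑ i, ∑ j, N i j * P i * P j + ∑ i, ∑ j, N i j * P i * T j
            + ∑ i, ∑ j, N i j * T i * P j + ∑ i, ∑ j, N i j * T i * T j := by
        simp only [← Finset.sum_add_distrib]
        refine Finset.sum_congr rfl fun i _ => Finset.sum_congr rfl fun j _ => by ring
      rw [hexp, hcross'] at hfin
      linarith
    · -- all y ≤ 0 and y 0 ≥ 0, so y 0 = 0, and the row 0 equation gives a contradiction
      push Not at hposy
      have h00 : y 0 = 0 := le_antisymm (hposy 0) hy00
      have h1 : ∑ j, N 0 j * y j < 0 := by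
        refine Finset.sum_neg' (fun j _ => ?_) ⟨j0, mem_univ _, ?_⟩
        · by_cases hij : (0 : Fin (m + 1)) = j
          · subst hij; rw [h00]; simp
          · exact mul_nonpos_of_nonneg_of_nonpos (hpos _ _ hij).le (hposy j)
        · have hne : (0 : Fin (m + 1)) ≠ j0 := by rintro rfl; linarith
          exact mul_neg_of_pos_of_neg (hpos _ _ hne) hj0
      linarith [hy 0]
  · -- Case B: y ≥ 0
    push Not at hneg
    have hypos : ∀ i, 0 < y i := by
      intro i
      refine lt_of_le_of_ne (hneg i) fun h => ?_
      obtain ⟨j0, hj0⟩ : ∃ j, y j ≠ 0 := by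
        by_contra hcon
        push Not at hcon
        exact hy0 (funext hcon)
      have hj0' : 0 < y j0 := lt_of_le_of_ne (hneg j0) (Ne.symm hj0)
      have h1 : 0 < ∑ j, N i j * y j := by
        refine Finset.sum_pos' (fun j _ => ?_) ⟨j0, mem_univ _, ?_⟩
        · by_cases hij : i = j
          · subst hij; rw [← h]; simp
          · exact mul_nonneg (hpos _ _ hij).le (hneg j)
        · have hne : i ≠ j0 := by rintro rfl; exact hj0 h.symm
          exact mul_pos (hpos _ _ hne) hj0'
      linarith [hy i]
    -- the Perron identity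
    have hid : ∑ i, ∑ j, N i j * y i * y j * (w i / y i - w j / y j) ^ 2
        = - 2 * ∑ i, ∑ j, N i j * w i * w j := by
      have e : ∀ i j, N i j * y i * y j * (w i / y i - w j / y j) ^ 2
          = (w i) ^ 2 / y i * (N i j * y j) + (w j) ^ 2 / y j * (N i j * y i)
            - 2 * (N i j * w i * w j) := by
        intro i j
        have h1 := (hypos i).ne'
        have h2 := (hypos j).ne'
        field_simp
        ring
      simp only [e, Finset.sum_sub_distrib, Finset.sum_add_distrib]
      have e1 : ∑ i, ∑ j, (w i) ^ 2 / y i * (N i j * y j) = 0 := by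
        refine Finset.sum_eq_zero fun i _ => ?_
        rw [← Finset.mul_sum, hy i, mul_zero]
      have e2 : ∑ i, ∑ j, (w j) ^ 2 / y j * (N i j * y i) = 0 := by
        rw [Finset.sum_comm]
        refine Finset.sum_eq_zero fun j _ => ?_
        rw [← Finset.mul_sum]
        have : ∑ i, N i j * y i = ∑ i, N j i * y i :=
          Finset.sum_congr rfl fun i _ => by rw [hsym i j]
        rw [this, hy j, mul_zero]
      rw [e1, e2]
      simp only [← Finset.mul_sum]
      ring
    obtain ⟨j0, hj0⟩ : ∃ j, w j ≠ 0 := by
      by_contra hcon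
      push Not at hcon
      exact hw (funext hcon)
    have hne : (0 : Fin (m + 1)) ≠ j0 := by rintro rfl; exact hj0 hw0
    have hterm : ∀ i j, 0 ≤ N i j * y i * y j * (w i / y i - w j / y j) ^ 2 := by
      intro i j
      by_cases hij : i = j
      · subst hij; simp
      · exact mul_nonneg (mul_nonneg (mul_nonneg (hpos _ _ hij).le (hypos i).le) (hypos j).le)
          (sq_nonneg _)
    have hstrict : 0 < ∑ i, ∑ j, N i j * y i * y j * (w i / y i - w j / y j) ^ 2 := by
      refine Finset.sum_pos' (fun i _ => Finset.sum_nonneg fun j _ => hterm i j)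
        ⟨0, mem_univ _, ?_⟩
      refine Finset.sum_pos' (fun j _ => hterm 0 j) ⟨j0, mem_univ _, ?_⟩
      have : w 0 / y 0 - w j0 / y j0 ≠ 0 := by
        rw [hw0, zero_div, zero_sub, neg_ne_zero]
        exact div_ne_zero hj0 (hypos j0).ne'
      exact mul_pos (mul_pos (mul_pos (hpos _ _ hne) (hypos 0)) (hypos j0))
        (lt_of_le_of_ne (sq_nonneg _) (Ne.symm (pow_ne_zero 2 this)))
    rw [hid, hQw] at hstrict
    linarith

end Pool.Agent.Lib.MP_154a23_co
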