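import Mathlib
import Pool.Agent.Lib.MP_154a23_co.Defs
import Pool.Agent.Lib.MP_154a23_co.Key

namespace Pool.Agent.Lib.MP_154a23_co

open Finset

/-- The key of a pair: indices of different parity get the larger index, indices of the same
parity get `2 n` minus the larger index. -/
def pairKeyAux (n : ℕ) (i j : Fin n) : ℤ :=
  if (i.val + j.val) % 2 = 1 then (max i.val j.val : ℤ) else 2 * (n : ℤ) - (max i.val j.val : ℤ)

theorem pairKeyAux_comm (n : ℕ) (i j : Fin n) : pairKeyAux n i j = pairKeyAux n j i := by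
  unfold pairKeyAux
  rw [add_comm i.val j.val, max_comm (i.val : ℤ) (j.val : ℤ)]

def pairKey (n : ℕ) (e : Pair n) : ℤ :=
  Sym2.lift ⟨fun i j => pairKeyAux n i j, fun i j => pairKeyAux_comm n i j⟩ e.1

@[simp] theorem pairKey_mk (n : ℕ) (i j : Fin n) (h : i ≠ j) :
    pairKey n (mkPair i j h) = pairKeyAux n i j := rfl

/-- An injective map of the pairs into a linear order, refining the key. -/
noncomputable def pairMap (n : ℕ) (e : Pair n) : ℤ ×ₗ Fin (Fintype.card (Pair n)) :=
  toLex (pairKey n e, Fintype.equivFin (Pair n) e)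

theorem pairMap_injective (n : ℕ) : Function.Injective (pairMap n) := by
  intro e f h
  have h1 : (pairKey n e, Fintype.equivFin (Pair n) e) = (pairKey n f, Fintype.equivFin (Pair n) f) :=
    toLex.injective h
  exact (Fintype.equivFin (Pair n)).injective (Prod.ext_iff.mp h1).2

/-- The bad order. -/
def badOrder (n : ℕ) (e f : Pair n) : Prop := pairMap n e < pairMap n f

theorem badOrder_isStrictTotalOrder (n : ℕ) : IsStrictTotalOrder (Pair n) (badOrder n) := by
  let φ : (badOrder n) ↪r ((· < ·) : (ℤ ×ₗ Fin (Fintype.card (Pair n))) → _ → Prop) :=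
    ⟨⟨pairMap n, pairMap_injective n⟩, Iff.rfl⟩
  exact φ.isStrictTotalOrder

theorem badOrder_of_key_lt {n : ℕ} {e f : Pair n} (h : pairKey n e < pairKey n f) :
    badOrder n e f := by
  unfold badOrder pairMap
  rw [Prod.Lex.toLex_lt_toLex]
  exact Or.inl h

theorem badOrder_not_realizable (d : ℕ) :
    ¬ Realizable (d + 3) d (badOrder (d + 3)) := by
  rintro ⟨p, hp⟩
  -- squared distances
  set D : Fin (d + 3) → Fin (d + 3) → ℝ := fun i j => ‖p i - p j‖ ^ 2 with hD
  have hlt : ∀ (i j k l : Fin (d + 3)), i ≠ j → k ≠ l →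
      pairKeyAux (d + 3) i j < pairKeyAux (d + 3) k l → D i j < D k l := by
    intro i j k l hij hkl h
    have h1 := hp i j k l hij hkl (badOrder_of_key_lt (by simpa using h))
    rw [dist_eq_norm, dist_eq_norm] at h1
    simp only [hD]
    exact pow_lt_pow_left₀ h1 (norm_nonneg _) two_ne_zero
  have hDsym : ∀ i j, D i j = D j i := by
    intro i j; simp only [hD]; rw [norm_sub_rev]
  have hDself : ∀ i, D i i = 0 := by intro i; simp [hD]
  -- threshold
  obtain ⟨c, hc1, hc2⟩ := Order.exists_between_finsets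
    (((univ : Finset (Fin (d + 3) × Fin (d + 3))).filter
      (fun q => (q.1.val + q.2.val) % 2 = 1)).image (fun q => D q.1 q.2))
    (((univ : Finset (Fin (d + 3) × Fin (d + 3))).filter
      (fun q => q.1 ≠ q.2 ∧ ¬ (q.1.val + q.2.val) % 2 = 1)).image (fun q => D q.1 q.2))
    (by
      intro x hx y hy
      simp only [mem_image, mem_filter, mem_univ, true_and] at hx hy
      obtain ⟨⟨i, j⟩, hij, rfl⟩ := hx
      obtain ⟨⟨k, l⟩, ⟨hkl, hkl'⟩, rfl⟩ := hy
      simp only at hij hkl hkl' ⊢
      refine hlt i j k l (by rintro rfl; omega) hkl ?_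
      unfold pairKeyAux
      rw [if_pos hij, if_neg hkl']
      have := i.isLt; have := j.isLt; have := k.isLt; have := l.isLt
      push_cast
      omega)
  have hcd : ∀ i j : Fin (d + 3), (i.val + j.val) % 2 = 1 → D i j < c := by
    intro i j h
    exact hc1 _ (mem_image.mpr ⟨(i, j), by simpa using h, rfl⟩)
  have hcs : ∀ i j : Fin (d + 3), i ≠ j → ¬ (i.val + j.val) % 2 = 1 → c < D i j := by
    intro i j hij h
    exact hc2 _ (mem_image.mpr ⟨(i, j), by
      simp only [mem_filter, mem_univ, true_and]; exact ⟨hij, h⟩, rfl⟩)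
  -- signs
  set s : Fin (d + 3) → ℝ := fun i => (-1) ^ i.val with hs
  have hs2 : ∀ i, s i * s i = 1 := by
    intro i; simp only [hs]; rw [← pow_add, ← two_mul, pow_mul]; norm_num
  have hss : ∀ i j : Fin (d + 3), s i * s j = if (i.val + j.val) % 2 = 1 then -1 else 1 := by
    intro i j
    simp only [hs]
    rw [← pow_add]
    split_ifs with h
    · exact Odd.neg_one_pow (Nat.odd_iff.mpr h)
    · exact Even.neg_one_pow (Nat.even_iff.mpr (by omega))
  set N : Fin (d + 3) → Fin (d + 3) → ℝ := fun i j => s i * s j * (D i j - c) with hN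
  have hsym : ∀ i j, N i j = N j i := by
    intro i j; simp only [hN]; rw [hDsym i j]; ring
  have hpos : ∀ i j, i ≠ j → 0 < N i j := by
    intro i j hij
    simp only [hN]
    rw [hss]
    split_ifs with h
    · have := hcd i j h; linarith
    · have := hcs i j hij h; linarith
  have hshift : ∀ i j : Fin (d + 2), N i.succ j.succ ≤ N i.castSucc j.castSucc := by
    intro i j
    simp only [hN]
    rw [hss, hss]
    have hpar : (i.succ.val + j.succ.val) % 2 = 1 ↔ (i.castSucc.val + j.castSucc.val) % 2 = 1 := by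
      simp only [Fin.val_succ, Fin.val_castSucc]; omega
    by_cases hij : i = j
    · subst hij; rw [hDself, hDself]
      simp only [hpar]
      exact le_refl _
    · have hne1 : i.succ ≠ j.succ := fun h => hij (Fin.succ_injective _ h)
      have hne2 : i.castSucc ≠ j.castSucc := fun h => hij (Fin.castSucc_injective _ h)
      by_cases h : (i.castSucc.val + j.castSucc.val) % 2 = 1
      · rw [if_pos (hpar.mpr h), if_pos h]
        have := hlt i.castSucc j.castSucc i.succ j.succ hne2 hne1 (by
          unfold pairKeyAux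
          rw [if_pos (hpar.mpr h), if_pos h]
          simp only [Fin.val_succ, Fin.val_castSucc]
          push_cast
          omega)
        linarith
      · rw [if_neg (fun h' => h (hpar.mp h')), if_neg h]
        have := hlt i.succ j.succ i.castSucc j.castSucc hne1 hne2 (by
          unfold pairKeyAux
          rw [if_neg (fun h' => h (hpar.mp h')), if_neg h]
          simp only [Fin.val_succ, Fin.val_castSucc]
          push_cast
          omega)
        linarith
  have hs' : ∀ i : Fin (d + 2), s i.succ = - s i.castSucc := by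
    intro i; simp only [hs, Fin.val_succ, Fin.val_castSucc, pow_succ]; ring
  -- quadratic form on sum-zero vectors
  have hquad : ∀ z : Fin (d + 3) → ℝ, ∑ i, s i * z i = 0 →
      ∑ i, ∑ j, N i j * z i * z j = - 2 * ‖∑ i, (s i * z i) • p i‖ ^ 2 := by
    intro z hz
    have h1 := inner_sum_smul_sum_smul_of_sum_eq_zero (s₁ := univ) (s₂ := univ)
      (w₁ := fun i => s i * z i) (w₂ := fun i => s i * z i) p hz p hz
    rw [real_inner_self_eq_norm_sq] at h1
    have h2 : ∑ i, ∑ j, N i j * z i * z j
        = ∑ i, ∑ j, (s i * z i) * (s j * z j) * (‖p i - p j‖ * ‖p i - p j‖)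
          - c * ((∑ i, s i * z i) * (∑ j, s j * z j)) := by
      rw [Finset.sum_mul_sum, Finset.mul_sum, ← Finset.sum_sub_distrib]
      refine Finset.sum_congr rfl fun i _ => ?_
      rw [Finset.mul_sum, ← Finset.sum_sub_distrib]
      refine Finset.sum_congr rfl fun j _ => ?_
      simp only [hN, hD]
      ring
    rw [h2, hz, h1]
    ring
  have hQ : ∀ z : Fin (d + 3) → ℝ, ∑ i, s i * z i = 0 →
      ∑ i, ∑ j, N i j * z i * z j ≤ 0 := by
    intro z hz
    rw [hquad z hz]
    have := sq_nonneg ‖∑ i, (s i * z i) • p i‖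
    linarith
  -- first vector
  obtain ⟨v, hv0, hv1, hv2, hv3⟩ : ∃ v : Fin (d + 3) → ℝ, v ≠ 0 ∧ ∑ i, v i = 0 ∧
      ∑ i, v i • p i = 0 ∧ ∑ i, v i * ‖p i‖ ^ 2 = 0 := by
    let L : (Fin (d + 3) → ℝ) →ₗ[ℝ] (ℝ × ℝ × EuclideanSpace ℝ (Fin d)) :=
      { toFun := fun v => (∑ i, v i, ∑ i, v i * ‖p i‖ ^ 2, ∑ i, v i • p i)
        map_add' := by
          intro a b
          simp only [Pi.add_apply, add_mul, add_smul, Finset.sum_add_distrib, Prod.mk_add_mk]
        map_smul' := by
          intro a b
          simp only [Pi.smul_apply, smul_eq_mul, mul_assoc, mul_smul, RingHom.id_apply,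
            Prod.smul_mk, Finset.mul_sum, Finset.smul_sum] }
    have hker : LinearMap.ker L ≠ ⊥ := LinearMap.ker_ne_bot_of_finrank_lt (by
      simp only [Module.finrank_prod, Module.finrank_self, finrank_euclideanSpace,
        Fintype.card_fin, Module.finrank_fintype_fun_eq_card]
      omega)
    obtain ⟨v, hv, hv0⟩ := (Submodule.ne_bot_iff _).mp hker
    have h := LinearMap.mem_ker.mp hv
    have h1 : (∑ i, v i, ∑ i, v i * ‖p i‖ ^ 2, ∑ i, v i • p i)
      = ((0 : ℝ), (0 : ℝ), (0 : EuclideanSpace ℝ (Fin d))) := h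
    simp only [Prod.mk.injEq] at h1
    exact ⟨v, hv0, h1.1, h1.2.2, h1.2.1⟩
  -- second vector
  obtain ⟨u, hu0, hu1, hu2, hu3⟩ : ∃ u : Fin (d + 3) → ℝ, u ≠ 0 ∧ ∑ i, u i = 0 ∧
      ∑ i, u i • p i = 0 ∧ u 0 = 0 := by
    let L : (Fin (d + 3) → ℝ) →ₗ[ℝ] (ℝ × ℝ × EuclideanSpace ℝ (Fin d)) :=
      { toFun := fun v => (∑ i, v i, v 0, ∑ i, v i • p i)
        map_add' := by
          intro a b
          simp only [Pi.add_apply, add_smul, Finset.sum_add_distrib, Prod.mk_add_mk]
        map_smul' := by
          intro a b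
          simp only [Pi.smul_apply, smul_eq_mul, mul_smul, RingHom.id_apply,
            Prod.smul_mk, Finset.mul_sum, Finset.smul_sum] }
    have hker : LinearMap.ker L ≠ ⊥ := LinearMap.ker_ne_bot_of_finrank_lt (by
      simp only [Module.finrank_prod, Module.finrank_self, finrank_euclideanSpace,
        Fintype.card_fin, Module.finrank_fintype_fun_eq_card]
      omega)
    obtain ⟨v, hv, hv0⟩ := (Submodule.ne_bot_iff _).mp hker
    have h := LinearMap.mem_ker.mp hv
    have h1 : (∑ i, v i, v 0, ∑ i, v i • p i)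
      = ((0 : ℝ), (0 : ℝ), (0 : EuclideanSpace ℝ (Fin d))) := h
    simp only [Prod.mk.injEq] at h1
    exact ⟨v, hv0, h1.1, h1.2.2, h1.2.1⟩
  have hsne : ∀ i, s i ≠ 0 := by
    intro i h
    have := hs2 i
    rw [h] at this; simp at this
  -- D v = 0
  have hDv : ∀ i, ∑ j, D i j * v j = 0 := by
    intro i
    have e : ∀ j, D i j * v j = ‖p i‖ ^ 2 * v j - 2 * inner ℝ (p i) (v j • p j)
        + v j * ‖p j‖ ^ 2 := by
      intro j
      simp only [hD]
      rw [norm_sub_sq_real, inner_smul_right]
      ring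
    simp only [e, Finset.sum_add_distrib, Finset.sum_sub_distrib, ← Finset.mul_sum]
    rw [hv1, hv3, ← inner_sum, hv2, inner_zero_right]
    ring
  refine key N s hsym hpos hshift hs' hQ (fun i => s i * v i) ?_ ?_ ?_ (fun i => s i * u i)
    ?_ ?_ ?_
  · intro h
    apply hv0
    funext i
    have := congrFun h i
    simp only [Pi.zero_apply] at this
    simpa [hsne i] using this
  · intro i
    have e : ∀ j, N i j * (s j * v j) = s i * (D i j * v j) - s i * c * v j := by
      intro j
      simp only [hN]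
      calc s i * s j * (D i j - c) * (s j * v j)
          = s i * (s j * s j) * ((D i j - c) * v j) := by ring
        _ = _ := by rw [hs2]; ring
    simp only [e, Finset.sum_sub_distrib, ← Finset.mul_sum]
    rw [hDv, hv1]; ring
  · have e : ∀ i, s i * (s i * v i) = v i := by
      intro i; rw [← mul_assoc, hs2, one_mul]
    simp only [e]; exact hv1
  · simp only [hu3, mul_zero]
  · intro h
    apply hu0
    funext i
    have := congrFun h i
    simp only [Pi.zero_apply] at this
    simpa [hsne i] using this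
  · have e : ∀ i, s i * (s i * u i) = u i := by
      intro i; rw [← mul_assoc, hs2, one_mul]
    rw [hquad (fun i => s i * u i) (by simp only [e]; exact hu1)]
    simp only [e]
    rw [hu2, norm_zero]; ring

theorem not_propertyStar (d : ℕ) : ¬ PropertyStar d := fun h =>
  badOrder_not_realizable d (h _ (badOrder_isStrictTotalOrder (d + 3)))

end Pool.Agent.Lib.MP_154a23_co
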