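import Mathlib

/-!
# MP_154a23_co: strict rank orders and the nested order
-/

set_option autoImplicit false

namespace Pool.Agent.Lib.MP_154a23_co

/-- The unordered pairs of distinct indices. -/
abbrev Pairs (n : ℕ) : Type := {e : Finset (Fin n) // e.card = 2}

/-- The pair `{i, j}`. -/
def mk {n : ℕ} (i j : Fin n) (h : i ≠ j) : Pairs n := ⟨{i, j}, Finset.card_pair h⟩

/-- The order `r` on the pairs is realizable in `ℝ ^ d`: there are points `p i` such that
`dist (p i) (p j) < dist (p k) (p l)` whenever `r {i, j} {k, l}`. -/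
def Realizable (n d : ℕ) (r : Pairs n → Pairs n → Prop) : Prop :=
  ∃ p : Fin n → EuclideanSpace ℝ (Fin d), ∀ (i j k l : Fin n) (hij : i ≠ j) (hkl : k ≠ l),
    r (mk i j hij) (mk k l hkl) → dist (p i) (p j) < dist (p k) (p l)

/-- Property `(∗)` of the dimension `d`: every strict total order on the pairs of `d + 3` indices
is realizable in `ℝ ^ d`. -/
def Star (d : ℕ) : Prop :=
  ∀ r : Pairs (d + 3) → Pairs (d + 3) → Prop, IsStrictTotalOrder (Pairs (d + 3)) r →
    Realizable (d + 3) d r

variable {n : ℕ}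

theorem pair_nonempty (e : Pairs n) : e.1.Nonempty := by
  rw [← Finset.card_pos, e.2]
  norm_num

/-- Larger element of a pair. -/
def mx (e : Pairs n) : Fin n := e.1.max' (pair_nonempty e)

/-- Smaller element of a pair. -/
def mn (e : Pairs n) : Fin n := e.1.min' (pair_nonempty e)

theorem mx_mk {i j : Fin n} (h : i < j) : mx (mk i j h.ne) = j := by
  apply le_antisymm
  · refine Finset.max'_le _ _ _ fun a ha => ?_
    have : a = i ∨ a = j := by simpa [mk] using ha
    rcases this with rfl | rfl
    · exact h.le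
    · exact le_refl _
  · exact Finset.le_max' _ _ (by simp [mk])

theorem mn_mk {i j : Fin n} (h : i < j) : mn (mk i j h.ne) = i := by
  apply le_antisymm
  · exact Finset.min'_le _ _ (by simp [mk])
  · refine Finset.le_min' _ _ _ fun a ha => ?_
    have : a = i ∨ a = j := by simpa [mk] using ha
    rcases this with rfl | rfl
    · exact le_refl _
    · exact h.le

theorem exists_mk (e : Pairs n) : ∃ (i j : Fin n) (h : i < j), e = mk i j h.ne := by
  obtain ⟨a, b, hab, he⟩ := Finset.card_eq_two.1 e.2
  rcases lt_or_gt_of_ne hab with h | h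
  · exact ⟨a, b, h, Subtype.ext he⟩
  · exact ⟨b, a, h, Subtype.ext (by rw [he, Finset.pair_comm]; rfl)⟩

theorem pair_ext {e f : Pairs n} (h1 : mx e = mx f) (h2 : mn e = mn f) : e = f := by
  obtain ⟨i, j, hij, rfl⟩ := exists_mk e
  obtain ⟨k, l, hkl, rfl⟩ := exists_mk f
  rw [mx_mk hij, mx_mk hkl] at h1
  rw [mn_mk hij, mn_mk hkl] at h2
  subst h1
  subst h2
  rfl

/-- The nested order: a pair with a larger maximum is smaller; pairs with the same maximum are
ordered by their minimum. -/
def nested (e f : Pairs n) : Prop := mx f < mx e ∨ (mx f = mx e ∧ mn e < mn f)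

theorem nested_mk {i j k l : Fin n} (hij : i < j) (hkl : k < l) :
    nested (mk i j hij.ne) (mk k l hkl.ne) ↔ l < j ∨ (l = j ∧ i < k) := by
  unfold nested
  rw [mx_mk hij, mx_mk hkl, mn_mk hij, mn_mk hkl]

theorem nested_total : IsStrictTotalOrder (Pairs n) nested where
  irrefl e h := by
    rcases h with h | h
    · exact lt_irrefl _ h
    · exact lt_irrefl _ h.2
  trans e f g h1 h2 := by
    rcases h1 with h1 | ⟨h1, h1'⟩
    · rcases h2 with h2 | ⟨h2, -⟩
      · exact Or.inl (h2.trans h1)
      · exact Or.inl (h2 ▸ h1)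
    · rcases h2 with h2 | ⟨h2, h2'⟩
      · exact Or.inl (h1 ▸ h2)
      · exact Or.inr ⟨h2.trans h1, h1'.trans h2'⟩
  trichotomous e f h1 h2 := by
    by_contra hne
    rcases lt_trichotomy (mx e) (mx f) with h | h | h
    · exact h2 (Or.inl h)
    · rcases lt_trichotomy (mn e) (mn f) with h' | h' | h'
      · exact h1 (Or.inr ⟨h.symm, h'⟩)
      · exact hne (pair_ext h h')
      · exact h2 (Or.inr ⟨h, h'⟩)
    · exact h1 (Or.inl h)

end Pool.Agent.Lib.MP_154a23_co
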