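import Mathlib
import Pool.Agent.Lib.MP_154a23_co.Homotopy

/-!
# MP_154a23_co: the nested order of `n` points is not realizable in dimension `n - 3`
-/

set_option autoImplicit false

namespace Pool.Agent.Lib.MP_154a23_co

variable {n : ℕ} {V : Type*} [NormedAddCommGroup V] [InnerProductSpace ℝ V]

theorem quad_dist (p : Fin n → V) {w : Fin n → ℝ} (hw : ∑ i, w i = 0) :
    quad (fun i j => dist (p i) (p j) ^ 2) w = -2 * ‖∑ i, w i • p i‖ ^ 2 := by
  have h1 : ‖∑ i, w i • p i‖ ^ 2 = ∑ i, w i * ∑ j, w j * inner ℝ (p i) (p j) := by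
    rw [← real_inner_self_eq_norm_sq, sum_inner]
    refine Finset.sum_congr rfl fun i _ => ?_
    rw [real_inner_smul_left, inner_sum]
    congr 1
    refine Finset.sum_congr rfl fun j _ => ?_
    rw [real_inner_smul_right]
  have h2 : ∀ i, ∑ l, dist (p i) (p l) ^ 2 * w l =
      ∑ l, w l * ‖p l‖ ^ 2 - 2 * ∑ l, w l * inner ℝ (p i) (p l) := by
    intro i
    have h3 : ∀ l, dist (p i) (p l) ^ 2 * w l =
        ‖p i‖ ^ 2 * w l + (w l * ‖p l‖ ^ 2 - 2 * (w l * inner ℝ (p i) (p l))) := by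
      intro l
      rw [dist_eq_norm, norm_sub_sq_real]
      ring
    rw [Finset.sum_congr rfl fun l _ => h3 l, Finset.sum_add_distrib, ← Finset.mul_sum, hw,
      Finset.sum_sub_distrib, ← Finset.mul_sum]
    ring
  unfold quad
  rw [h1, Finset.mul_sum]
  have h4 : ∀ i, w i * ∑ l, dist (p i) (p l) ^ 2 * w l =
      (∑ l, w l * ‖p l‖ ^ 2) * w i + -2 * (w i * ∑ l, w l * inner ℝ (p i) (p l)) := by
    intro i
    rw [h2]
    ring
  rw [Finset.sum_congr rfl fun i _ => h4 i, Finset.sum_add_distrib, ← Finset.mul_sum, hw,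
    mul_zero, zero_add]

theorem exists_dependence [FiniteDimensional ℝ V] (p : Fin n → V) (hn : 0 < n)
    (h : Module.finrank ℝ V + 2 < n) :
    ∃ u : Fin n → ℝ, u ≠ 0 ∧ ∑ i, u i = 0 ∧ u ⟨0, hn⟩ = 0 ∧ ∑ i, u i • p i = 0 := by
  let f : Fin n → ℝ × ℝ × V := fun i => (1, if i = ⟨0, hn⟩ then 1 else 0, p i)
  let L := Fintype.linearCombination ℝ f
  have hlt : Module.finrank ℝ (ℝ × ℝ × V) < Module.finrank ℝ (Fin n → ℝ) := by
    rw [Module.finrank_prod, Module.finrank_prod, Module.finrank_self, Module.finrank_fin_fun]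
    omega
  have hker := LinearMap.ker_ne_bot_of_finrank_lt (f := L) hlt
  obtain ⟨u, hu, hu0⟩ := (Submodule.ne_bot_iff _).1 hker
  rw [LinearMap.mem_ker, Fintype.linearCombination_apply] at hu
  have h1 := congrArg Prod.fst hu
  have h2 := congrArg (fun x => x.2.1) hu
  have h3 := congrArg (fun x => x.2.2) hu
  simp only [Prod.fst_sum, Prod.snd_sum, f, Prod.smul_mk, Prod.fst_zero, Prod.snd_zero,
    smul_eq_mul, mul_one, mul_ite, mul_zero, Finset.sum_ite_eq', Finset.mem_univ, if_true] at h1 h2 h3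
  exact ⟨u, hu0, h1, h2, h3⟩

/-- The nested order is not the order of the distances of `n` points in dimension at most
`n - 3`. -/
theorem not_nested [FiniteDimensional ℝ V] (p : Fin n → V) (h : Module.finrank ℝ V + 2 < n)
    (hblk : ∀ i j k l, i < j → k < l → l < j → dist (p i) (p j) < dist (p k) (p l))
    (hrow : ∀ i k j, i < k → k < j → dist (p i) (p j) < dist (p k) (p j)) : False := by
  have hn : 0 < n := by omega
  obtain ⟨u, hu0, hus, huz, hup⟩ := exists_dependence p hn h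
  have hD : Pre fun i j => dist (p i) (p j) ^ 2 := by
    refine ⟨fun i j => by rw [dist_comm], fun i => by simp, fun i j k l h1 h2 h3 => ?_,
      fun i k j h1 h2 => ?_⟩
    · exact pow_lt_pow_left₀ (hblk i j k l h1 h2 h3) dist_nonneg two_ne_zero
    · exact pow_lt_pow_left₀ (hrow i k j h1 h2) dist_nonneg two_ne_zero
  have hsq : 0 < ∑ i, u i ^ 2 := by
    obtain ⟨i, hi⟩ : ∃ i, u i ≠ 0 := by
      by_contra hcon
      push Not at hcon
      exact hu0 (funext hcon)
    exact Finset.sum_pos' (fun i _ => sq_nonneg _) ⟨i, Finset.mem_univ _, by positivity⟩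
  let c : ℝ := (Real.sqrt (∑ i, u i ^ 2))⁻¹
  have hc : c ^ 2 * ∑ i, u i ^ 2 = 1 := by
    simp only [c]
    rw [inv_pow, Real.sq_sqrt hsq.le, inv_mul_cancel₀ hsq.ne']
  have hmem : c • u ∈ sph n := by
    constructor
    · simp only [Pi.smul_apply, smul_eq_mul]
      rw [← Finset.mul_sum, hus, mul_zero]
    · simp only [Pi.smul_apply, smul_eq_mul, mul_pow]
      rw [← Finset.mul_sum, hc]
  have htop : TopVec (fun i j => dist (p i) (p j) ^ 2) (c • u) := by
    refine ⟨hmem, fun w hw => ?_⟩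
    rw [quad_smul, quad_dist p hus, quad_dist p hw.1, hup, norm_zero]
    nlinarith [sq_nonneg ‖∑ i, w i • p i‖]
  have hz : (c • u) ⟨0, hn⟩ = 0 := by
    rw [Pi.smul_apply, huz, smul_zero]
  rcases top_strict hD (by omega) htop with ⟨m, h1, -⟩ | ⟨m, h1, -⟩
  · have := h1 ⟨0, hn⟩ (Nat.zero_le _)
    rw [hz] at this
    exact lt_irrefl _ this
  · have := h1 ⟨0, hn⟩ (Nat.zero_le _)
    rw [Pi.neg_apply, hz, neg_zero] at this
    exact lt_irrefl _ this

end Pool.Agent.Lib.MP_154a23_co
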